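import Mathlib

/-!
# A field with an absolute value `v` with `v 2 = 2` embeds isometrically into `ℂ`
(Ostrowski's theorem for archimedean absolute values, normalised), from Mathlib's
Gelfand-Mazur theorem.
-/

open UniformSpace

namespace Pool.Agent.X258.ArchEmbed

variable {K : Type*} [Field K] (v : AbsoluteValue K ℝ)

theorem v_nat_le (n : ℕ) : v (n : K) ≤ n := by
  induction n with
  | zero => simp
  | succ n ih =>
    push_cast
    calc v ((n : K) + 1) ≤ v (n : K) + v 1 := v.add_le _ _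
      _ ≤ n + 1 := by rw [map_one]; linarith

theorem v_nat (h2 : v 2 = 2) (n : ℕ) : v (n : K) = n := by
  refine le_antisymm (v_nat_le v n) ?_
  have h1 : n ≤ 2 ^ n := Nat.lt_two_pow_self.le
  have h3 : v ((2 ^ n : ℕ) : K) = 2 ^ n := by
    push_cast
    rw [map_pow, h2]
  have h4 : v ((2 ^ n : ℕ) : K) ≤ v (n : K) + v ((2 ^ n - n : ℕ) : K) := by
    rw [Nat.cast_sub h1]
    calc v ((2 ^ n : ℕ) : K) = v ((n : K) + (((2 ^ n : ℕ) : K) - (n : K))) := by congr 1; ring
      _ ≤ _ := v.add_le _ _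
  have h5 := v_nat_le v (2 ^ n - n)
  have h6 : ((2 ^ n - n : ℕ) : ℝ) = 2 ^ n - n := by
    rw [Nat.cast_sub h1]; push_cast; ring
  rw [h6] at h5
  rw [h3] at h4
  linarith

theorem charZero (h2 : v 2 = 2) : CharZero K := by
  refine ⟨fun m n h => ?_⟩
  have h' := congrArg v h
  rw [v_nat v h2, v_nat v h2] at h'
  exact_mod_cast h'

theorem v_rat (h2 : v 2 = 2) (q : ℚ) : v (q : K) = |(q : ℝ)| := by
  have := charZero v h2
  have hint : ∀ m : ℤ, v (m : K) = |(m : ℝ)| := by
    intro m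
    obtain ⟨n, rfl | rfl⟩ := m.eq_nat_or_neg
    · simp [v_nat v h2]
    · simp [v_nat v h2]
  rw [← Rat.num_div_den q]
  push_cast
  rw [map_div₀, hint, v_nat v h2, abs_div]
  simp

theorem arch_embed (h2 : v 2 = 2) : ∃ ψ : K →+* ℂ, ∀ x, ‖ψ x‖ = v x := by
  have := charZero v h2
  let F := v.Completion
  letI : NormedField F := inferInstance
  let ι : K →+* F := (Completion.coeRingHom (α := WithAbs v)).comp
    (WithAbs.equiv v).symm.toRingHom
  have hι : ∀ x, ‖ι x‖ = v x := by
    intro x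
    show ‖((WithAbs.toAbs v x : WithAbs v) : Completion (WithAbs v))‖ = v x
    rw [Completion.norm_coe]
    rfl
  let g : ℚ →+* F := ι.comp (Rat.castHom K)
  have hg : ∀ q, ‖g q‖ = |(q : ℝ)| := by
    intro q
    show ‖ι (q : K)‖ = _
    rw [hι, v_rat v h2]
  have hgi : Isometry g := by
    refine Isometry.of_dist_eq fun a b => ?_
    rw [dist_eq_norm, ← map_sub, hg, Rat.dist_eq]
    push_cast
    rfl
  have hui : IsUniformInducing (Rat.castHom ℝ) := Rat.isUniformEmbedding_coe_real.isUniformInducing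
  have hdr : DenseRange (Rat.castHom ℝ) := Rat.denseRange_cast
  let φ : ℝ →+* F := IsDenseInducing.extendRingHom hui hdr hgi.uniformContinuous
  have hφc : Continuous φ :=
    (uniformContinuous_uniformly_extend hui hdr hgi.uniformContinuous).continuous
  have hφq : ∀ q : ℚ, φ (q : ℝ) = g q := by
    intro q
    exact uniformly_extend_of_ind hui hdr hgi.uniformContinuous q
  have hφn : ∀ r : ℝ, ‖φ r‖ = |r| := by
    intro r
    have h1 : Continuous fun r : ℝ => ‖φ r‖ := hφc.norm
    have h2 : Continuous fun r : ℝ => |r| := continuous_abs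
    have := (Rat.denseRange_cast (𝕜 := ℝ)).equalizer h1 h2 (by
      funext q
      simp only [Function.comp]
      rw [hφq, hg])
    exact congrFun this r
  letI : Algebra ℝ F := φ.toAlgebra
  letI : NormedAlgebra ℝ F :=
    { norm_smul_le := fun r x => by
        rw [Algebra.smul_def, norm_mul]
        show ‖φ r‖ * ‖x‖ ≤ _
        rw [hφn, Real.norm_eq_abs] }
  have key : ∃ e : F →ₐ[ℝ] ℂ, FiniteDimensional ℝ F := by
    rcases NormedAlgebra.Real.nonempty_algEquiv_or F with ⟨⟨e⟩⟩ | ⟨⟨e⟩⟩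
    · exact ⟨(Algebra.ofId ℝ ℂ).comp e.toAlgHom, LinearEquiv.finiteDimensional e.symm.toLinearEquiv⟩
    · exact ⟨e.toAlgHom, LinearEquiv.finiteDimensional e.symm.toLinearEquiv⟩
  obtain ⟨e, hfd⟩ := key
  obtain ⟨C, hC0, hC⟩ := (LinearMap.toContinuousLinearMap e.toLinearMap).bound
  have hle : ∀ x : F, ‖e x‖ ≤ ‖x‖ := by
    intro x
    by_contra hlt
    push Not at hlt
    have hx : 0 < ‖x‖ := by
      rcases (norm_nonneg x).eq_or_lt with h | h
      · rw [eq_comm, norm_eq_zero] at h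
        subst h
        simp at hlt
      · exact h
    have hr : 1 < ‖e x‖ / ‖x‖ := by rwa [one_lt_div hx]
    obtain ⟨n, hn⟩ := pow_unbounded_of_one_lt C hr
    have h3 : ‖e (x ^ n)‖ ≤ C * ‖x ^ n‖ := hC (x ^ n)
    rw [map_pow, norm_pow, norm_pow] at h3
    rw [div_pow, lt_div_iff₀ (by positivity)] at hn
    linarith
  have heq : ∀ x : F, ‖e x‖ = ‖x‖ := by
    intro x
    refine le_antisymm (hle x) ?_
    by_cases hx : x = 0
    · subst hx; simp
    · have h4 := hle x⁻¹
      rw [map_inv₀, norm_inv, norm_inv] at h4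
      have hx' : 0 < ‖x‖ := norm_pos_iff.2 hx
      have hex' : 0 < ‖e x‖ := norm_pos_iff.2 (by simpa using hx)
      exact (inv_le_inv₀ hex' hx').1 h4
  exact ⟨e.toRingHom.comp ι, fun x => by
    show ‖e (ι x)‖ = v x
    rw [heq, hι]⟩

end Pool.Agent.X258.ArchEmbed
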